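import Pool.Agent.H772R2.NS.Pub

/-!
Public definitions: the rate of compression of a flow in the direction of a vector field.
-/

set_option autoImplicit false

open MeasureTheory Set
open scoped InnerProductSpace

namespace Pool.Agent.V11287.DC

open H772R2.NS.Pub

/-- The matrix `w ⊗ w` with the entries `w_i w_j`. -/
noncomputable def outer (w : R3) : Mat :=
  WithLp.toLp 2 fun p : Fin 3 × Fin 3 => ⟪e p.1, w⟫_ℝ * ⟪e p.2, w⟫_ℝ

/-- The rate `max(0, -w·(G w)) / |w|²` at the point `x` at which a flow with the velocity gradient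
`G` compresses in the direction of `w`; it is `0` at the points where `w(x) = 0`. -/
noncomputable def compression {Ω : Set R3} (G : L2 Ω Mat) (w : L2 Ω R3) (x : R3) : ℝ :=
  max 0 (-⟪outer (w.fn x), G.fn x⟫_ℝ) / ‖w.fn x‖ ^ 2

end Pool.Agent.V11287.DC
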