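import Pool.Agent.V1183.RA.Fin
import Pool.Agent.V11287.DC.PubDef

/-!
The criterion in terms of the rate of compression in the direction of the time derivative.
-/

set_option autoImplicit false
set_option linter.unusedSectionVars false

open MeasureTheory Set Filter Topology
open scoped InnerProductSpace ENNReal ContDiff NNReal

namespace Pool.Agent.V11287.DC

open H772R2.NS H772R2.NS.Pub H772R2.NSR H772R2.NSG
open Pool.Agent.W795.TQ Pool.Agent.Y303.RA Pool.Agent.TH301.EQ Pool.Agent.V1183.RA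

theorem outer_eq' (w : E3) : @Eq M3 (outer (show R3 from w)) (tens w) := by
  refine PiLp.ext fun p => ?_
  have h : ∀ i : Fin 3, (⟪(EuclideanSpace.single i (1 : ℝ) : E3), w⟫_ℝ : ℝ) = w i := by
    intro i
    rw [EuclideanSpace.inner_single_left]
    simp
  show (⟪(EuclideanSpace.single p.1 (1 : ℝ) : E3), w⟫_ℝ
    * ⟪(EuclideanSpace.single p.2 (1 : ℝ) : E3), w⟫_ℝ : ℝ) = w p.1 * w p.2
  rw [h, h]

theorem outer_eq (w : R3) : @Eq M3 (outer w) (tens (w : E3)) := outer_eq' w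

variable {Ω : Set E3}

/-- the compression rate, in terms of `E3` -/
noncomputable def cmp (z : L2M Ω) (w : L2V Ω) (x : E3) : ℝ :=
  max 0 (-⟪tens (w x), z x⟫_ℝ) / ‖w x‖ ^ 2

theorem compression_eq (z : L2M Ω) (w : L2V Ω) (x : E3) :
    compression (Ω := (show Set R3 from Ω)) z w x = cmp z w x := by
  have h : compression (Ω := (show Set R3 from Ω)) z w x
    = max 0 (-⟪(outer (w x) : M3), z x⟫_ℝ) / ‖w x‖ ^ 2 := rfl
  rw [h, outer_eq]
  rfl

theorem cmp_nonneg (z : L2M Ω) (w : L2V Ω) (x : E3) : 0 ≤ cmp z w x := by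
  unfold cmp
  positivity

theorem tens_zero : tens (0 : E3) = 0 := by
  ext p
  simp [tens_apply]

theorem continuous_tens : Continuous tens := by
  unfold tens
  refine (PiLp.continuous_toLp 2 _).comp ?_
  refine continuous_pi fun p => ?_
  exact (EuclideanSpace.proj p.1 : E3 →L[ℝ] ℝ).continuous.mul
    (EuclideanSpace.proj p.2 : E3 →L[ℝ] ℝ).continuous

theorem neg_inner_le (z : L2M Ω) (w : L2V Ω) (x : E3) :
    -⟪tens (w x), z x⟫_ℝ ≤ cmp z w x * ‖w x‖ ^ 2 := by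
  unfold cmp
  rcases eq_or_ne (w x) 0 with h | h
  · rw [h, tens_zero]
    simp
  · have h1 : 0 < ‖w x‖ := norm_pos_iff.2 h
    rw [div_mul_cancel₀ _ (by positivity)]
    exact le_max_right _ _

theorem cmp_meas (z : L2M Ω) (w : L2V Ω) :
    AEStronglyMeasurable (cmp z w) (volume.restrict Ω) := by
  have h1 : AEStronglyMeasurable (fun x : E3 => w x) (volume.restrict Ω) :=
    Lp.aestronglyMeasurable w
  have h2 : AEStronglyMeasurable (fun x : E3 => z x) (volume.restrict Ω) :=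
    Lp.aestronglyMeasurable z
  have h3 : AEStronglyMeasurable (fun x : E3 => tens (w x)) (volume.restrict Ω) :=
    continuous_tens.comp_aestronglyMeasurable h1
  have h4 : AEStronglyMeasurable (fun x : E3 => max 0 (-⟪tens (w x), z x⟫_ℝ))
      (volume.restrict Ω) :=
    (aestronglyMeasurable_const (b := (0 : ℝ))).sup (h3.inner h2).neg
  exact (h4.aemeasurable.div (h1.norm.pow 2).aemeasurable).aestronglyMeasurable

/-- bound of `∫ h |w|²` by the norm of `h` in `L^q` -/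
theorem int_prod (hΩ : MeasurableSet Ω) {p : L2V Ω × L2M Ω}
    (hp : p ∈ graphW Ω) {h : E3 → ℝ} (hh : AEStronglyMeasurable h (volume.restrict Ω))
    (hh0 : ∀ x, 0 ≤ h x)
    {q : ℝ≥0∞} {θ B : ℝ} (hq : 3 / 2 ≤ q) (hθ : θ = (3 / (2 * q)).toReal) (hθ1 : θ ≤ 1)
    (hB : 0 ≤ B) (hhB : eLpNorm h q (volume.restrict Ω) ≤ ENNReal.ofReal B) :
    Integrable (fun x => h x * ‖p.1 x‖ ^ 2) (volume.restrict Ω) ∧
    ∫ x in Ω, h x * ‖p.1 x‖ ^ 2 ≤ B * (‖p.1‖ ^ (1 - θ) * ((CS : ℝ) * ‖p.2‖) ^ θ) ^ 2 := by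
  have hθ0 : 0 ≤ θ := by rw [hθ]; exact ENNReal.toReal_nonneg
  set w : E3 → ℝ := fun x => √(h x) with hw
  have hwm : AEStronglyMeasurable w (volume.restrict Ω) :=
    Real.continuous_sqrt.comp_aestronglyMeasurable hh
  have hsq : ∀ x, w x ^ 2 = h x := fun x => Real.sq_sqrt (hh0 x)
  have hq2 : (3 : ℝ≥0∞) ≤ 2 * q := by
    calc (3 : ℝ≥0∞) = 2 * (3 / 2) := by
          rw [ENNReal.mul_div_cancel (by norm_num) (by norm_num)]
      _ ≤ 2 * q := by gcongr
  have hnw : eLpNorm w (2 * q) (volume.restrict Ω) ≤ ENNReal.ofReal (√B) := by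
    have e1 := eLpNorm_norm_rpow (p := q) (μ := volume.restrict Ω) w (by norm_num : (0 : ℝ) < 2)
    have e2 : (fun x => ‖w x‖ ^ (2 : ℝ)) = h := by
      funext x
      have : ‖w x‖ = w x := Real.norm_of_nonneg (Real.sqrt_nonneg _)
      rw [this]
      have h3 : w x ^ (2 : ℝ) = w x ^ 2 := by
        rw [← Real.rpow_natCast]; norm_num
      rw [h3, hsq]
    have e3 : q * ENNReal.ofReal 2 = 2 * q := by
      rw [mul_comm]; simp
    rw [e2, e3] at e1
    rw [e1] at hhB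
    have h4 : eLpNorm w (2 * q) (volume.restrict Ω)
        = (eLpNorm w (2 * q) (volume.restrict Ω) ^ (2 : ℝ)) ^ (1 / 2 : ℝ) := by
      rw [← ENNReal.rpow_mul]
      norm_num
    rw [h4, Real.sqrt_eq_rpow, ← ENNReal.ofReal_rpow_of_nonneg hB (by norm_num)]
    exact ENNReal.rpow_le_rpow hhB (by norm_num)
  have h1 := prod_le (μ := volume.restrict Ω) hwm (Lp.aestronglyMeasurable p.1) hq2 hθ
  have h6 := six_le hΩ hp
  have h2 : eLpNorm (fun x => w x * ‖p.1 x‖) 2 (volume.restrict Ω)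
      ≤ ENNReal.ofReal (√B) * (‖p.1‖ₑ ^ (1 - θ) * ((CS : ℝ≥0∞) * ‖p.2‖ₑ) ^ θ) := by
    refine h1.trans ?_
    gcongr
    rw [Lp.enorm_def]
  have hfin : ENNReal.ofReal (√B) * (‖p.1‖ₑ ^ (1 - θ) * ((CS : ℝ≥0∞) * ‖p.2‖ₑ) ^ θ) < ⊤ := by
    refine ENNReal.mul_lt_top ENNReal.ofReal_lt_top (ENNReal.mul_lt_top ?_ ?_)
    · exact ENNReal.rpow_lt_top_of_nonneg (by linarith) enorm_ne_top
    · exact ENNReal.rpow_lt_top_of_nonneg hθ0 (ENNReal.mul_ne_top (by simp) enorm_ne_top)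
  have hmem : MemLp (fun x => w x * ‖p.1 x‖) 2 (volume.restrict Ω) :=
    ⟨hwm.mul (Lp.aestronglyMeasurable p.1).norm, h2.trans_lt hfin⟩
  have hsqi := (memLp_two_iff_integrable_sq hmem.aestronglyMeasurable).mp hmem
  have epw : (fun x => (w x * ‖p.1 x‖) ^ 2) = fun x => h x * ‖p.1 x‖ ^ 2 := by
    funext x
    rw [mul_pow, hsq]
  rw [epw] at hsqi
  refine ⟨hsqi, ?_⟩
  have h4 : ∫ x in Ω, (w x * ‖p.1 x‖) ^ 2
      = (eLpNorm (fun x => w x * ‖p.1 x‖) 2 (volume.restrict Ω)).toReal ^ 2 := by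
    rw [← Lp.norm_toLp _ hmem, ← real_inner_self_eq_norm_sq, L2.inner_def]
    apply integral_congr_ae
    filter_upwards [hmem.coeFn_toLp] with x hx
    rw [hx, real_inner_self_eq_norm_sq, Real.norm_eq_abs, sq_abs]
  rw [epw] at h4
  have h5 : (eLpNorm (fun x => w x * ‖p.1 x‖) 2 (volume.restrict Ω)).toReal
      ≤ √B * (‖p.1‖ ^ (1 - θ) * ((CS : ℝ) * ‖p.2‖) ^ θ) := by
    have := ENNReal.toReal_mono hfin.ne h2
    rw [ENNReal.toReal_mul, ENNReal.toReal_ofReal (Real.sqrt_nonneg _), ENNReal.toReal_mul,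
      ← ENNReal.toReal_rpow,
      ← ENNReal.toReal_rpow, ENNReal.toReal_mul, toReal_enorm, toReal_enorm,
      ENNReal.coe_toReal] at this
    exact this
  rw [h4]
  refine (pow_le_pow_left₀ ENNReal.toReal_nonneg h5 2).trans (le_of_eq ?_)
  rw [mul_pow, Real.sq_sqrt hB]

theorem inner_int (hΩ : MeasurableSet Ω) {p : L2V Ω × L2M Ω} (hp : p ∈ graphW Ω) (z : L2M Ω) :
    Integrable (fun x => ⟪tens (p.1 x), z x⟫_ℝ) (volume.restrict Ω) ∧
    ⟪tensL p.1, z⟫_ℝ = ∫ x in Ω, ⟪tens (p.1 x), z x⟫_ℝ := by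
  have h1 := tensL_coe hΩ hp
  refine ⟨(L2.integrable_inner (𝕜 := ℝ) (tensL p.1) z).congr ?_, ?_⟩
  · filter_upwards [h1] with x hx
    rw [hx]
  · rw [L2.inner_def]
    apply integral_congr_ae
    filter_upwards [h1] with x hx
    rw [hx]

/-- bound of the quadratic term by the truncated compression rate -/
theorem quad_le (hΩ : MeasurableSet Ω) {p : L2V Ω × L2M Ω}
    (hp : p ∈ graphW Ω) {z : L2M Ω} {q : ℝ≥0∞} {θ B K : ℝ} (hq : 3 / 2 ≤ q)
    (hθ : θ = (3 / (2 * q)).toReal) (hθ1 : θ ≤ 1) (hB : 0 ≤ B)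
    (hhB : eLpNorm (fun x => max 0 (cmp z p.1 x - K)) q (volume.restrict Ω)
      ≤ ENNReal.ofReal B) :
    -⟪tensL p.1, z⟫_ℝ
      ≤ K * ‖p.1‖ ^ 2 + B * (‖p.1‖ ^ (1 - θ) * ((CS : ℝ) * ‖p.2‖) ^ θ) ^ 2 := by
  have hm : AEStronglyMeasurable (fun x => max 0 (cmp z p.1 x - K)) (volume.restrict Ω) :=
    (aestronglyMeasurable_const (b := (0 : ℝ))).sup
      ((cmp_meas z p.1).sub aestronglyMeasurable_const)
  obtain ⟨i1, i2⟩ := int_prod hΩ hp hm (fun x => le_max_left _ _) hq hθ hθ1 hB hhB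
  obtain ⟨j1, j2⟩ := inner_int hΩ hp z
  have n1 : Integrable (fun x => ‖p.1 x‖ ^ 2) (volume.restrict Ω) :=
    (memLp_two_iff_integrable_sq_norm (Lp.aestronglyMeasurable p.1)).mp (Lp.memLp p.1)
  have n2 : ∫ x in Ω, ‖p.1 x‖ ^ 2 = ‖p.1‖ ^ 2 := by
    rw [← real_inner_self_eq_norm_sq, L2.inner_def]
    apply integral_congr_ae
    filter_upwards with x
    rw [real_inner_self_eq_norm_sq]
  rw [j2, ← integral_neg]
  calc ∫ x in Ω, -⟪tens (p.1 x), z x⟫_ℝ
      ≤ ∫ x in Ω, (K * ‖p.1 x‖ ^ 2 + max 0 (cmp z p.1 x - K) * ‖p.1 x‖ ^ 2) := by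
        refine integral_mono j1.neg ((n1.const_mul K).add i1) fun x => ?_
        have h1 := neg_inner_le z p.1 x
        have h2 : cmp z p.1 x ≤ K + max 0 (cmp z p.1 x - K) := by
          have := le_max_right 0 (cmp z p.1 x - K)
          linarith
        have h3 : cmp z p.1 x * ‖p.1 x‖ ^ 2 ≤ (K + max 0 (cmp z p.1 x - K)) * ‖p.1 x‖ ^ 2 :=
          mul_le_mul_of_nonneg_right h2 (by positivity)
        calc _ ≤ _ := h1
          _ ≤ _ := h3
          _ = _ := by ring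
    _ = K * ‖p.1‖ ^ 2 + ∫ x in Ω, max 0 (cmp z p.1 x - K) * ‖p.1 x‖ ^ 2 := by
        rw [integral_add (n1.const_mul K) i1, integral_const_mul, n2]
    _ ≤ _ := by linarith

end Pool.Agent.V11287.DC
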