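import Pool.Agent.V11287.DC.Comp

/-!
Lower bounds near a first singular time in terms of the rate of compression in the direction of
the time derivative.
-/

set_option autoImplicit false
set_option linter.unusedSectionVars false

open MeasureTheory Set Filter Topology
open scoped InnerProductSpace ENNReal ContDiff NNReal

namespace Pool.Agent.V11287.DC

open H772R2.NS H772R2.NS.Pub H772R2.NSR H772R2.NSG
open Pool.Agent.W795.TQ Pool.Agent.Y303.RA Pool.Agent.TH301.EQ Pool.Agent.V1183.RA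

/-- weighted inequality between the means -/
theorem young_quad {b g h ν θ : ℝ} (hb : 0 ≤ b) (hg : 0 ≤ g) (hh : 0 ≤ h) (hν : 0 < ν)
    (hθ0 : 0 ≤ θ) (hθ1 : θ < 1) :
    b * (h ^ (1 - θ) * g ^ θ) ^ 2 ≤ ν / 2 * g ^ 2
      + b ^ (1 / (1 - θ)) * (2 / ν) ^ (1 / (1 - θ) - 1) * h ^ 2 := by
  set Λ : ℝ := b ^ (1 / (1 - θ)) * (2 / ν) ^ (1 / (1 - θ) - 1) with hΛ
  have hΛ0 : 0 ≤ Λ := by positivity
  have h1θ : 0 < 1 - θ := by linarith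
  have key := Real.geom_mean_le_arith_mean2_weighted (w₁ := θ) (w₂ := 1 - θ)
    (p₁ := ν / 2 * g ^ 2) (p₂ := Λ * h ^ 2) hθ0 h1θ.le (by positivity)
    (by positivity) (by ring)
  have e1 : (ν / 2 * g ^ 2) ^ θ = (ν / 2) ^ θ * (g ^ θ) ^ 2 := by
    rw [Real.mul_rpow (by positivity) (by positivity), ← Real.rpow_natCast g 2,
      ← Real.rpow_mul hg, mul_comm ((2 : ℕ) : ℝ) θ, Real.rpow_mul hg, Real.rpow_natCast]
  have e2 : (Λ * h ^ 2) ^ (1 - θ) = b * (2 / ν) ^ θ * (h ^ (1 - θ)) ^ 2 := by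
    rw [Real.mul_rpow hΛ0 (by positivity), hΛ, Real.mul_rpow (by positivity) (by positivity),
      ← Real.rpow_mul hb, ← Real.rpow_mul (by positivity), ← Real.rpow_natCast h 2,
      ← Real.rpow_mul hh, mul_comm ((2 : ℕ) : ℝ) (1 - θ), Real.rpow_mul hh, Real.rpow_natCast]
    have k1 : 1 / (1 - θ) * (1 - θ) = 1 := by field_simp
    have k2 : (1 / (1 - θ) - 1) * (1 - θ) = θ := by
      field_simp
      ring
    rw [k1, k2, Real.rpow_one]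
  have e3 : (ν / 2) ^ θ * (2 / ν) ^ θ = 1 := by
    rw [← Real.mul_rpow (by positivity) (by positivity)]
    have : ν / 2 * (2 / ν) = 1 := by field_simp
    rw [this, Real.one_rpow]
  rw [e1, e2] at key
  have e4 : (ν / 2) ^ θ * (g ^ θ) ^ 2 * (b * (2 / ν) ^ θ * (h ^ (1 - θ)) ^ 2)
      = b * (h ^ (1 - θ) * g ^ θ) ^ 2 := by
    calc _ = ((ν / 2) ^ θ * (2 / ν) ^ θ) * (b * (h ^ (1 - θ) * g ^ θ) ^ 2) := by ring
      _ = _ := by rw [e3, one_mul]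
  rw [e4] at key
  have h3 : θ * (ν / 2 * g ^ 2) ≤ 1 * (ν / 2 * g ^ 2) := by gcongr
  have h4 : (1 - θ) * (Λ * h ^ 2) ≤ 1 * (Λ * h ^ 2) := by
    gcongr
    linarith
  linarith

variable {Ω : Set E3}

section sing

variable {C ν T τ κ : ℝ} {F F1 : ℝ → L2M Ω} {v v1 : ℝ → L2V Ω} {z z1 : ℝ → L2M Ω}

/-- the form-bounded criterion -/
theorem low_form (hΩ : MeasurableSet Ω) (Fr : Frame (graphW Ω) (tensL (Ω := Ω)) C) (hν : 0 < ν)
    (hτT : τ ≤ T) (hF : FH T F F1)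
    (hS : ∀ t ∈ Ioo 0 τ, Str (graphW Ω) (tensL (Ω := Ω)) ν t F v v1 z z1) (hκ : 0 < κ)
    (hrate : ∀ t0 < τ, ¬ ∀ᵐ t ∂(volume.restrict (Ioo t0 τ)),
      ‖v1 t‖ ≤ κ * (τ - t) ^ (-(3 / 4) : ℝ)) {s : ℝ} (hs : s ∈ Ico 0 τ) {δ : ℝ} (hδ : 0 < δ) :
    ∃ M : ℝ, ∀ lam : ℝ → ℝ, (∀ t, 0 ≤ lam t) → (∀ t ∈ Ioo s τ, IntegrableOn lam (Ioc s t)) →
      (∀ᵐ t ∂(volume.restrict (Ioo s τ)),
        -(∫ x in Ω, ⟪tens (v1 t x), z t x⟫_ℝ) ≤ (1 - δ) * ν * ‖z1 t‖ ^ 2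
          + lam t * ‖v1 t‖ ^ 2) →
      ∀ t0 < τ, ∃ t ∈ Ioo t0 τ, s < t ∧
        3 / 4 * Real.log (1 / (τ - t)) - M ≤ ∫ r in s..t, lam r := by
  obtain ⟨M, hM⟩ := low_Λ Fr (hom_tensL hΩ) hν hτT hF hS hκ hrate hs hδ
  refine ⟨M, fun lam h0 hi hc => hM lam h0 hi ?_⟩
  have hss : Ioo s τ ⊆ Ioo 0 τ := Ioo_subset_Ioo_left hs.1
  filter_upwards [hc, ae_mono (Measure.restrict_mono hss le_rfl)
      (mem1_ae (hs.1.trans_lt hs.2) hS)] with t h1 h2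
  have := (inner_int hΩ h2 (z t)).2
  simp only at this
  rw [this]
  exact h1

/-- the truncated criterion -/
theorem low_trunc (hΩ : MeasurableSet Ω) (Fr : Frame (graphW Ω) (tensL (Ω := Ω)) C) (hν : 0 < ν)
    (hτT : τ ≤ T) (hF : FH T F F1)
    (hS : ∀ t ∈ Ioo 0 τ, Str (graphW Ω) (tensL (Ω := Ω)) ν t F v v1 z z1) (hκ : 0 < κ)
    (hrate : ∀ t0 < τ, ¬ ∀ᵐ t ∂(volume.restrict (Ioo t0 τ)),
      ‖v1 t‖ ≤ κ * (τ - t) ^ (-(3 / 4) : ℝ)) {s : ℝ} (hs : s ∈ Ico 0 τ) :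
    ∃ M : ℝ, ∀ K : ℝ → ℝ, (∀ t, 0 ≤ K t) → (∀ t ∈ Ioo s τ, IntegrableOn K (Ioc s t)) →
      (∀ᵐ t ∂(volume.restrict (Ioo s τ)),
        eLpNorm (fun x => max 0 (cmp (z t) (v1 t) x - K t)) (3 / 2)
          (volume.restrict Ω) ≤ ENNReal.ofReal (1 / (2 * ((CS : ℝ) + 1) ^ 2) * ν)) →
      ∀ t0 < τ, ∃ t ∈ Ioo t0 τ, s < t ∧
        3 / 4 * Real.log (1 / (τ - t)) - M ≤ ∫ r in s..t, K r := by
  have hCS : (0 : ℝ) ≤ (CS : ℝ) := NNReal.coe_nonneg _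
  obtain ⟨M, hM⟩ := low_Λ Fr (hom_tensL hΩ) hν hτT hF hS hκ hrate hs (δ := 1 / 2) (by norm_num)
  refine ⟨M, fun K h0 hi hc => hM K h0 hi ?_⟩
  have hss : Ioo s τ ⊆ Ioo 0 τ := Ioo_subset_Ioo_left hs.1
  filter_upwards [hc, ae_mono (Measure.restrict_mono hss le_rfl)
      (mem1_ae (hs.1.trans_lt hs.2) hS)] with t h1 h2
  have e32 : (3 / (2 * (3 / 2)) : ℝ≥0∞) = 1 := by
    rw [ENNReal.mul_div_cancel (by norm_num) (by norm_num)]
    exact ENNReal.div_self (by norm_num) (by norm_num)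
  have k := quad_le (p := (v1 t, z1 t)) (z := z t) (q := 3 / 2) (θ := 1) (K := K t) hΩ h2 le_rfl
    (by rw [e32]; rfl) le_rfl (by positivity) h1
  have e0 : (1 - (1 : ℝ)) = 0 := by norm_num
  simp only at k
  rw [e0, Real.rpow_zero, one_mul, Real.rpow_one] at k
  refine k.trans ?_
  have h5 : (CS : ℝ) / ((CS : ℝ) + 1) ≤ 1 := by
    rw [div_le_one (by positivity)]
    linarith
  have h6 : ((CS : ℝ) / ((CS : ℝ) + 1)) ^ 2 ≤ 1 := by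
    have : 0 ≤ (CS : ℝ) / ((CS : ℝ) + 1) := by positivity
    exact pow_le_one₀ this h5
  have h7 : 1 / (2 * ((CS : ℝ) + 1) ^ 2) * ν * ((CS : ℝ) * ‖z1 t‖) ^ 2
      = ν / 2 * ‖z1 t‖ ^ 2 * ((CS : ℝ) / ((CS : ℝ) + 1)) ^ 2 := by
    field_simp
  have h8 : ν / 2 * ‖z1 t‖ ^ 2 * ((CS : ℝ) / ((CS : ℝ) + 1)) ^ 2 ≤ ν / 2 * ‖z1 t‖ ^ 2 :=
    mul_le_of_le_one_right (by positivity) h6
  rw [h7]
  have h9 : (1 - 1 / 2) * ν * ‖z1 t‖ ^ 2 = ν / 2 * ‖z1 t‖ ^ 2 := by ring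
  rw [h9]
  linarith

/-- the criterion in `L^q` -/
theorem low_q (hΩ : MeasurableSet Ω) (Fr : Frame (graphW Ω) (tensL (Ω := Ω)) C) (hν : 0 < ν)
    (hτT : τ ≤ T) (hF : FH T F F1)
    (hS : ∀ t ∈ Ioo 0 τ, Str (graphW Ω) (tensL (Ω := Ω)) ν t F v v1 z z1) (hκ : 0 < κ)
    (hrate : ∀ t0 < τ, ¬ ∀ᵐ t ∂(volume.restrict (Ioo t0 τ)),
      ‖v1 t‖ ≤ κ * (τ - t) ^ (-(3 / 4) : ℝ)) {s : ℝ} (hs : s ∈ Ico 0 τ) {q : ℝ≥0∞} {θ c : ℝ}
    (hq : 3 / 2 ≤ q) (hθ : θ = (3 / (2 * q)).toReal) (hθ1 : θ < 1)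
    (hc : c = 3 / 4 / (((((CS : ℝ) + 1) ^ θ) ^ 2) ^ (1 / (1 - θ)) * 2 ^ (1 / (1 - θ) - 1))) :
    ∃ M : ℝ, ∀ B : ℝ → ℝ, (∀ t, 0 ≤ B t) →
      (∀ t ∈ Ioo s τ, IntegrableOn (fun r => B r ^ (1 / (1 - θ))) (Ioc s t)) →
      (∀ᵐ t ∂(volume.restrict (Ioo s τ)),
        eLpNorm (cmp (z t) (v1 t)) q (volume.restrict Ω) ≤ ENNReal.ofReal (B t)) →
      ∀ t0 < τ, ∃ t ∈ Ioo t0 τ, s < t ∧
        c * ν ^ (1 / (1 - θ) - 1) * Real.log (1 / (τ - t)) - M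
          ≤ ∫ r in s..t, B r ^ (1 / (1 - θ)) := by
  have hθ0 : 0 ≤ θ := by rw [hθ]; exact ENNReal.toReal_nonneg
  have h1θ : 0 < 1 - θ := by linarith
  have hCS : (0 : ℝ) ≤ (CS : ℝ) := NNReal.coe_nonneg _
  set A : ℝ := ((((CS : ℝ) + 1) ^ θ) ^ 2) ^ (1 / (1 - θ)) * (2 / ν) ^ (1 / (1 - θ) - 1) with hA
  have hA0 : 0 < A := by positivity
  obtain ⟨M, hM⟩ := low_Λ Fr (hom_tensL hΩ) hν hτT hF hS hκ hrate hs (δ := 1 / 2) (by norm_num)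
  refine ⟨M / A, ?_⟩
  intro B h0 hi hc' t0 ht0
  have hss : Ioo s τ ⊆ Ioo 0 τ := Ioo_subset_Ioo_left hs.1
  obtain ⟨t, ht, hst, hl⟩ := hM (fun t => A * B t ^ (1 / (1 - θ))) (fun t => by
    have := h0 t
    positivity) (fun t ht => (hi t ht).const_mul _) (by
    filter_upwards [hc', ae_mono (Measure.restrict_mono hss le_rfl)
      (mem1_ae (hs.1.trans_lt hs.2) hS)] with t h1 h2
    have h1' : eLpNorm (fun x => max 0 (cmp (z t) (v1 t) x - 0)) q (volume.restrict Ω)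
        ≤ ENNReal.ofReal (B t) := by
      have e : (fun x => max 0 (cmp (z t) (v1 t) x - 0)) = cmp (z t) (v1 t) := by
        funext x
        rw [sub_zero, max_eq_right (cmp_nonneg _ _ _)]
      rw [e]
      exact h1
    have k := quad_le (p := (v1 t, z1 t)) (z := z t) (K := 0) hΩ h2 hq hθ hθ1.le (h0 t) h1'
    simp only at k
    have hz : 0 ≤ ‖z1 t‖ := norm_nonneg _
    have hv : 0 ≤ ‖v1 t‖ := norm_nonneg _
    have hB := h0 t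
    have k4 : ((CS : ℝ) * ‖z1 t‖) ^ θ ≤ ((CS : ℝ) + 1) ^ θ * ‖z1 t‖ ^ θ := by
      rw [Real.mul_rpow hCS hz]
      gcongr
      linarith
    have k5 : B t * (‖v1 t‖ ^ (1 - θ) * ((CS : ℝ) * ‖z1 t‖) ^ θ) ^ 2
        ≤ (B t * (((CS : ℝ) + 1) ^ θ) ^ 2) * (‖v1 t‖ ^ (1 - θ) * ‖z1 t‖ ^ θ) ^ 2 := by
      calc B t * (‖v1 t‖ ^ (1 - θ) * ((CS : ℝ) * ‖z1 t‖) ^ θ) ^ 2
          ≤ B t * (‖v1 t‖ ^ (1 - θ) * (((CS : ℝ) + 1) ^ θ * ‖z1 t‖ ^ θ)) ^ 2 := by gcongr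
        _ = _ := by ring
    have k6 := young_quad (b := B t * (((CS : ℝ) + 1) ^ θ) ^ 2) (by positivity) hz hv hν hθ0 hθ1
    have e2 : (B t * (((CS : ℝ) + 1) ^ θ) ^ 2) ^ (1 / (1 - θ)) * (2 / ν) ^ (1 / (1 - θ) - 1)
        = A * B t ^ (1 / (1 - θ)) := by
      rw [Real.mul_rpow hB (by positivity), hA]
      ring
    rw [e2] at k6
    have k8 : (1 - 1 / 2) * ν * ‖z1 t‖ ^ 2 = ν / 2 * ‖z1 t‖ ^ 2 := by ring
    rw [k8]
    linarith) t0 ht0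
  refine ⟨t, ht, hst, ?_⟩
  rw [intervalIntegral.integral_const_mul] at hl
  have e1 : c * ν ^ (1 / (1 - θ) - 1) = 3 / 4 / A := by
    have e3 : (2 / ν) ^ (1 / (1 - θ) - 1) = 2 ^ (1 / (1 - θ) - 1) / ν ^ (1 / (1 - θ) - 1) :=
      Real.div_rpow (by norm_num) hν.le _
    have hν' : 0 < ν ^ (1 / (1 - θ) - 1) := Real.rpow_pos_of_pos hν _
    rw [hc, hA, e3]
    field_simp
  rw [e1]
  have : 3 / 4 / A * Real.log (1 / (τ - t)) - M / A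
      = (3 / 4 * Real.log (1 / (τ - t)) - M) / A := by ring
  rw [this, div_le_iff₀ hA0]
  linarith

/-- no singularity if the rate of compression is at most `a / (τ - t)`, `a < 3/4`, up to a small
error -/
theorem low_typeI (hΩ : MeasurableSet Ω) (Fr : Frame (graphW Ω) (tensL (Ω := Ω)) C) (hν : 0 < ν)
    (hτT : τ ≤ T) (hF : FH T F F1)
    (hS : ∀ t ∈ Ioo 0 τ, Str (graphW Ω) (tensL (Ω := Ω)) ν t F v v1 z z1) (hκ : 0 < κ)
    (hrate : ∀ t0 < τ, ¬ ∀ᵐ t ∂(volume.restrict (Ioo t0 τ)),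
      ‖v1 t‖ ≤ κ * (τ - t) ^ (-(3 / 4) : ℝ)) {s : ℝ} (hs : s ∈ Ico 0 τ) {a : ℝ} (ha0 : 0 ≤ a)
    (ha : a < 3 / 4) :
    ¬ ∀ᵐ t ∂(volume.restrict (Ioo s τ)),
        eLpNorm (fun x => max 0 (cmp (z t) (v1 t) x - a / (τ - t))) (3 / 2)
          (volume.restrict Ω) ≤ ENNReal.ofReal (1 / (2 * ((CS : ℝ) + 1) ^ 2) * ν) := by
  intro hc'
  obtain ⟨M, hM⟩ := low_trunc hΩ Fr hν hτT hF hS hκ hrate hs
  have hcont : ∀ t ∈ Ioo s τ, ContinuousOn (fun r => a / (τ - r)) (Icc s t) := by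
    intro t ht
    refine ContinuousOn.div continuousOn_const (by fun_prop) fun r hr => ?_
    have : r < τ := hr.2.trans_lt ht.2
    linarith
  have hconc := hM (fun r => |a / (τ - r)|) (fun _ => abs_nonneg _) (fun t ht => by
    exact ((hcont t ht).abs.integrableOn_Icc).mono_set Ioc_subset_Icc_self) (by
    filter_upwards [hc', ae_restrict_mem measurableSet_Ioo] with t h1 h2
    have h3 : 0 < τ - t := by linarith [h2.2]
    rw [abs_of_nonneg (by positivity)]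
    exact h1)
  have hd : 0 < 3 / 4 - a := by linarith
  set L : ℝ := (M + a * Real.log (τ - s) + 1) / (3 / 4 - a) with hL
  set ε : ℝ := Real.exp (-L) with hε
  have hε0 : 0 < ε := Real.exp_pos _
  obtain ⟨t, ht, hst, h5⟩ := hconc (τ - ε) (by linarith)
  have hp : 0 < τ - t := by linarith [ht.2]
  have h6 : τ - t < ε := by linarith [ht.1]
  have h7 : Real.log (τ - t) < -L := by
    rw [Real.log_lt_iff_lt_exp hp]
    exact h6
  have hint : ∫ r in s..t, |a / (τ - r)| = a * (Real.log (τ - s) - Real.log (τ - t)) := by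
    have e1 : ∫ r in s..t, |a / (τ - r)| = ∫ r in s..t, a * (τ - r)⁻¹ := by
      refine intervalIntegral.integral_congr fun r hr => ?_
      rw [uIcc_of_le hst.le] at hr
      have : 0 < τ - r := by linarith [hr.2, ht.2]
      rw [abs_of_nonneg (by positivity), div_eq_mul_inv]
    have e2 : ∫ r in s..t, (τ - r)⁻¹ = Real.log (τ - s) - Real.log (τ - t) := by
      have e3 := intervalIntegral.integral_comp_sub_left (fun y : ℝ => y⁻¹) τ (a := s) (b := t)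
      rw [e3, integral_inv_of_pos hp (by linarith), Real.log_div (by linarith) hp.ne']
    rw [e1, intervalIntegral.integral_const_mul, e2]
  rw [hint, one_div, Real.log_inv] at h5
  have h8 : (3 / 4 - a) * L = M + a * Real.log (τ - s) + 1 := by
    rw [hL, mul_div_cancel₀ _ hd.ne']
  have h9 : (3 / 4 - a) * -Real.log (τ - t) > (3 / 4 - a) * L :=
    mul_lt_mul_of_pos_left (by linarith) hd
  nlinarith

end sing

end Pool.Agent.V11287.DC
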